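import Pool.Agent.Y998.CN.Tor
import Pool.Agent.Y664.CN.TR
import Pool.Agent.Y641.CN.PB
import Pool.Agent.Y154.CN.PR
import Pool.Agent.Y950.CN.PATH
import Pool.Agent.Y259.CN.CG
import Pool.Agent.Y375.CN.EN

/-!
# The number of cycles of random stirring on the torus

For stirring on the torus `(ℤ / L)^d` with rates at least those of nearest neighbour stirring, at a
time `2 ≤ t ≤ L²`, with or without the weight `θ ^ (number of cycles)`, `θ > 0`, the number of cycles
is at most `L^d t^(-d/2 + o(1))`, in the sense of exponential moments; the exponent `d/2` is the right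
one for nearest neighbour stirring.
-/

set_option autoImplicit false

namespace Pool.Agent.Results.MP_6c3d62_pr.NumberOfCycles

open Finset Equiv
open Pool.Agent.Y998.ST Pool.Agent.Y998.CN

/-- The expectation of `F` for random stirring at time `t` with the additional weight
`θ ^ (number of cycles)`. -/
noncomputable def wExp {V : Type} [Fintype V] [DecidableEq V] (J : V → V → ℝ) (t θ : ℝ)
    (F : Perm V → ℝ) : ℝ :=
  (∑ g, stirLaw J t g * θ ^ numCycles g * F g) / ∑ g, stirLaw J t g * θ ^ numCycles g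

theorem wExp_le {V : Type} [Fintype V] [DecidableEq V] {J : V → V → ℝ} {t θ : ℝ} {F : Perm V → ℝ}
    {c : ℝ} (hW : 0 < WW J t θ)
    (h : ∑ g, stirLaw J t g * θ ^ numCycles g * F g ≤ c * WW J t θ) : wExp J t θ F ≤ c :=
  (div_le_iff₀ hW).2 h

/-- Random stirring on the torus `(ℤ / L)^d`, `d ≥ 1` arbitrary, started at the identity, with
rates `J` at least those of nearest neighbour stirring. For every `θ > 0` there is a constant `C`
depending only on `d` and `θ` such that for all `L ≥ 3` and all times `2 ≤ t ≤ L²`, with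
`ρ = t^(-d/2) (log t)^(1 + d/2)`:

* the mean of `θ ^ (number of cycles)` is at most `exp (C ρ L^d)`;
* the mean number of cycles for stirring with the weight `θ ^ (number of cycles)` is at most
  `C ρ L^d`;
* if the rates are translation invariant then for this weighted stirring the cycle of a given point
  has at most `K` points with probability at most `C ρ K`, for all `K`.

For nearest neighbour stirring (without weight) the mean number of cycles is at least
`c t^(-d/2) L^d`. -/
theorem result (d : ℕ) (hd : 1 ≤ d) :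
    (∀ θ : ℝ, 0 < θ → ∃ C : ℝ, 0 < C ∧ ∀ (L : ℕ) [NeZero L], 3 ≤ L →
      ∀ t : ℝ, 2 ≤ t → t ≤ (L : ℝ) ^ 2 →
      ∀ J : (Fin d → ZMod L) → (Fin d → ZMod L) → ℝ, (∀ x y, nnRate d L x y ≤ J x y) →
        stirExp J t (fun g => θ ^ numCycles g) ≤
          Real.exp (C * (t ^ (-((d : ℝ) / 2)) * Real.log t ^ (1 + (d : ℝ) / 2)) * (L : ℝ) ^ d) ∧
        wExp J t θ (fun g => numCycles g) ≤
          C * (t ^ (-((d : ℝ) / 2)) * Real.log t ^ (1 + (d : ℝ) / 2)) * (L : ℝ) ^ d ∧
        ((∀ x y z, J (x + z) (y + z) = J x y) → ∀ (v : Fin d → ZMod L) (K : ℕ),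
          wExp J t θ (fun g => if cycleLen g v ≤ K then 1 else 0) ≤
            C * (t ^ (-((d : ℝ) / 2)) * Real.log t ^ (1 + (d : ℝ) / 2)) * K)) ∧
    ∃ c : ℝ, 0 < c ∧ ∀ (L : ℕ) [NeZero L], 3 ≤ L → ∀ t : ℝ, 2 ≤ t → t ≤ (L : ℝ) ^ 2 →
      c * t ^ (-((d : ℝ) / 2)) * (L : ℝ) ^ d ≤
        stirExp (nnRate d L) t (fun g => numCycles g) := by
  have hTR := Pool.Agent.Y664.CN.t_TR
  have hPB := Pool.Agent.Y641.CN.t_PB
  have hPR := Pool.Agent.Y154.CN.t_PR
  have hPATH := Pool.Agent.Y950.CN.t_PATH
  have hCG := Pool.Agent.Y259.CN.t_CG Pool.Agent.Y375.CN.EN.t_EN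
  constructor
  · intro θ hθ
    obtain ⟨C1, hC1, h1⟩ := cycles_bound hTR hPB hPR hPATH hCG d hd θ hθ
    obtain ⟨q, hq⟩ : ∃ q : ℕ, q = ⌈θ⌉₊ + 1 := ⟨_, rfl⟩
    have hq1 : 1 ≤ q := by omega
    have hqθ : θ ≤ q := by
      rw [hq]
      have := Nat.le_ceil θ
      push_cast
      linarith
    obtain ⟨C2, hC2, h2⟩ := main_bound hPB hPR hPATH hCG d q hd hq1
    refine ⟨max C1 C2, lt_max_of_lt_left hC1, ?_⟩
    intro L _ hL t ht htL J hJ
    have ht0 : 0 ≤ t := by linarith
    have hJ0 : ∀ x y, 0 ≤ J x y := fun x y => (nn_nonneg x y).trans (hJ x y)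
    have hJ1 : ∀ v w k, co (phi d L) w = Function.update (co (phi d L) v) k (co (phi d L) v k + 1) →
        1 ≤ J v w := fun v w k h => (nn_adj v w k h).trans (hJ v w)
    have hρ := rho_pos d ht
    have hρe : t ^ (-((d : ℝ) / 2)) * Real.log t ^ (1 + (d : ℝ) / 2) = rho d t := rfl
    rw [hρe]
    have hLd : (0 : ℝ) ≤ (L : ℝ) ^ d := by positivity
    have hW : 0 < WW J t θ := WW_pos hJ0 ht0 hθ
    have hN := h1 L _ (phi d L) J hJ0 hJ1 t ht htL
    have hlaw : ∀ g, 0 ≤ stirLaw J t g := fun g => law_nonneg hJ0 ht0 g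
    have hmain : wExp J t θ (fun g => numCycles g) ≤ C1 * rho d t * (L : ℝ) ^ d := by
      refine wExp_le hW (hN.trans (le_of_eq ?_))
      ring
    refine ⟨?_, ?_, ?_⟩
    · have h3 := h2 L _ (phi d L) J hJ0 hJ1 t ht htL
      rw [← hTR] at h3
      refine le_trans ?_ (h3.trans (Real.exp_le_exp.2 ?_))
      · unfold stirExp
        refine Finset.sum_le_sum fun g _ => mul_le_mul_of_nonneg_left ?_ (hlaw g)
        exact pow_le_pow_left₀ hθ.le hqθ _
      · have : C2 * (L : ℝ) ^ d * rho d t ≤ max C1 C2 * rho d t * (L : ℝ) ^ d := by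
          have h4 : C2 * (rho d t * (L : ℝ) ^ d) ≤ max C1 C2 * (rho d t * (L : ℝ) ^ d) :=
            mul_le_mul_of_nonneg_right (le_max_right _ _) (by positivity)
          nlinarith
        exact this
    · refine hmain.trans ?_
      have h4 : C1 * (rho d t * (L : ℝ) ^ d) ≤ max C1 C2 * (rho d t * (L : ℝ) ^ d) :=
        mul_le_mul_of_nonneg_right (le_max_left _ _) (by positivity)
      nlinarith
    · intro htr v K
      have h5 := all_alike (J := J) (fun v w => trans_torus J htr v w) t θ K v
      have hcard : (Fintype.card (Fin d → ZMod L) : ℝ) = (L : ℝ) ^ d := by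
        rw [Fintype.card_fun, ZMod.card, Fintype.card_fin]
        push_cast
        rfl
      rw [hcard] at h5
      have hL0 : (0 : ℝ) < (L : ℝ) ^ d := by
        have : (0 : ℝ) < L := by exact_mod_cast (by omega : 0 < L)
        positivity
      have h6 : ∑ g, stirLaw J t g * θ ^ numCycles g *
          (Nat.card {w : Fin d → ZMod L // cycleLen g w ≤ K} : ℝ) ≤
          K * (C1 * (L : ℝ) ^ d * rho d t * WW J t θ) := by
        refine le_trans ?_ (mul_le_mul_of_nonneg_left hN (Nat.cast_nonneg K))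
        unfold WN
        rw [Finset.mul_sum]
        refine Finset.sum_le_sum fun g _ => ?_
        have h7 := short_le g K
        have h8 : 0 ≤ stirLaw J t g * θ ^ numCycles g := mul_nonneg (hlaw g) (by positivity)
        calc stirLaw J t g * θ ^ numCycles g *
              (Nat.card {w : Fin d → ZMod L // cycleLen g w ≤ K} : ℝ)
            ≤ stirLaw J t g * θ ^ numCycles g * (K * numCycles g) :=
              mul_le_mul_of_nonneg_left h7 h8
          _ = _ := by ring
      rw [← h5] at h6
      refine wExp_le hW ?_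
      have h9 : (L : ℝ) ^ d * ∑ g, stirLaw J t g * θ ^ numCycles g *
          (if cycleLen g v ≤ K then 1 else 0) ≤
          (L : ℝ) ^ d * (max C1 C2 * rho d t * K * WW J t θ) := by
        refine h6.trans ?_
        have h4 : C1 * (rho d t * (L : ℝ) ^ d * (K * WW J t θ)) ≤
            max C1 C2 * (rho d t * (L : ℝ) ^ d * (K * WW J t θ)) :=
          mul_le_mul_of_nonneg_right (le_max_left _ _) (by positivity)
        nlinarith
      exact le_of_mul_le_mul_left h9 hL0
  · refine ⟨(Real.exp (-10) / 2) ^ d, by positivity, fun L _ hL t ht htL => ?_⟩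
    refine le_trans (le_of_eq ?_) (num_ge hL ht htL)
    ring

end Pool.Agent.Results.MP_6c3d62_pr.NumberOfCycles
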