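import Pool.Agent.W805.LR.Cons
import Pool.Agent.Results.MP_6c3d62_pr.NumberOfCycles

/-!
# Long cycles for stirring with long range rates

The analogue of the long cycle conjecture for random stirring on the torus `(ℤ / L)^d` with symmetric
rates at least `lam * distance ^ (-(d + σ))`, `0 < σ < d`, at large fixed times, also with the weight
`θ ^ (number of cycles)`.
-/

set_option autoImplicit false

namespace Pool.Agent.Results.MP_6c3d62_pr.LongRangeLongCycles

open Finset Equiv
open Pool.Agent.Y998.ST Pool.Agent.Y998.CN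
open Pool.Agent.Results.MP_6c3d62_pr.NumberOfCycles (wExp)

/-- Sup-distance in the box `{0, ..., L - 1}^d`. It is at least the distance on the torus. -/
def boxDist {d L : ℕ} (x y : Fin d → ZMod L) : ℕ :=
  univ.sup fun a => (((x a).val : ℤ) - (y a).val).natAbs

/-- Symmetric rates that are at least `lam * distance ^ (-(d + σ))`; otherwise arbitrary. Since
`boxDist` is at least the distance on the torus, the condition with the latter is stronger. -/
def Rates (d L : ℕ) (σ lam : ℝ) (J : (Fin d → ZMod L) → (Fin d → ZMod L) → ℝ) : Prop :=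
  (∀ x y, J x y = J y x) ∧ (∀ x, J x x = 0) ∧
    ∀ x y, x ≠ y → lam * (boxDist x y : ℝ) ^ (-((d : ℝ) + σ)) ≤ J x y

/-- The fraction of the points in cycles with fewer than `K` points. -/
noncomputable def shortFrac {V : Type} [Fintype V] (K : ℝ) (g : Perm V) : ℝ :=
  (Nat.card {v : V // (cycleLen g v : ℝ) < K} : ℝ) / Fintype.card V

/-- There are (at least) `k` different cycles with at least `K` points. -/
def ManyLong {V : Type} [Fintype V] (k : ℕ) (K : ℝ) (g : Perm V) : Prop :=
  ∃ f : Fin k → V, (∀ a b, a ≠ b → ¬ g.SameCycle (f a) (f b)) ∧ ∀ a, K ≤ (cycleLen g (f a) : ℝ)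

section bridge

variable {V : Type} [Fintype V] [DecidableEq V]

theorem len_eq (g : Perm V) (v : V) : Pool.Agent.W805.LR.len g v = (cycleLen g v : ℝ) := by
  classical
  unfold Pool.Agent.W805.LR.len cycleLen
  rw [Pool.Agent.W805.LR.cnt_eq, Nat.card_eq_fintype_card, Fintype.card_subtype, Finset.sum_boole]

theorem many_iff (g : Perm V) (k : ℕ) (s : ℝ) :
    Pool.Agent.W805.LR.manyCyc g k s ↔ ManyLong k s g := by
  unfold Pool.Agent.W805.LR.manyCyc ManyLong
  simp only [len_eq]

theorem short_eq (g : Perm V) (s : ℝ) :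
    (Pool.Agent.W805.LR.cnt fun v => Pool.Agent.W805.LR.len g v < s) =
      (Nat.card {v : V // (cycleLen g v : ℝ) < s} : ℝ) := by
  classical
  rw [Pool.Agent.W805.LR.cnt_eq]
  simp only [len_eq]
  rw [Nat.card_eq_fintype_card, Fintype.card_subtype, Finset.sum_boole]

theorem mass_eq (J : V → V → ℝ) (t : ℝ) (g : Perm V) :
    stirLaw J t g = Real.exp (-(t * totalRate J)) * Pool.Agent.W805.LR.stirMass J t g :=
  Pool.Agent.W805.LR.series_eq J t g

theorem wsum_eq (J : V → V → ℝ) (t θ : ℝ) (F : Perm V → ℝ) :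
    ∑ g, stirLaw J t g * θ ^ numCycles g * F g = Real.exp (-(t * totalRate J)) *
      ∑ g, Pool.Agent.W805.LR.stirMass J t g * θ ^ Pool.Agent.W805.LR.cyc g * F g := by
  rw [Finset.mul_sum]
  refine Finset.sum_congr rfl fun g _ => ?_
  rw [mass_eq]
  have : Pool.Agent.W805.LR.cyc g = numCycles g := rfl
  rw [this]
  ring

end bridge

open Classical in
/-- The analogue of the long cycle conjecture for stirring with long range rates, at large fixed
times.  Let `d ≥ 1`, `0 < σ < d`, `lam > 0` and `θ > 0`. Random stirring on the torus `(ℤ / L)^d`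
with any symmetric rates that are at least `lam * distance ^ (-(d + σ))`, started at the identity
and with the weight `θ ^ (number of cycles)` (`θ = 1`: without weight), satisfies:

* for every `η > 0` there are a time `t₁` and `ε > 0` such that for every `t ≥ t₁` and every large
  `L` the expected fraction of the points in cycles with fewer than `ε L^d` points is at most `η`;
* there is a time `t₁` such that for every `k` there are `ε > 0` and `c > 0` such that for every
  `t ≥ t₁` and every large `L` there are with probability at least `c` at least `k + 1` different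
  cycles with at least `ε L^d` points. -/
theorem result (d : ℕ) (σ lam θ : ℝ) (hd : 1 ≤ d) (hσ : 0 < σ) (hσd : σ < d) (hlam : 0 < lam)
    (hθ : 0 < θ) :
    (∀ η : ℝ, 0 < η → ∃ t₁ > 0, ∃ ε > 0, ∀ t ≥ t₁, ∃ L₀ : ℕ, ∀ (L : ℕ) [NeZero L], L₀ ≤ L →
      ∀ J : (Fin d → ZMod L) → (Fin d → ZMod L) → ℝ, Rates d L σ lam J →
        wExp J t θ (fun g => shortFrac (ε * (L : ℝ) ^ d) g) ≤ η) ∧
    ∃ t₁ > 0, ∀ k : ℕ, ∃ ε > 0, ∃ c > 0, ∀ t ≥ t₁, ∃ L₀ : ℕ, ∀ (L : ℕ) [NeZero L], L₀ ≤ L →
      ∀ J : (Fin d → ZMod L) → (Fin d → ZMod L) → ℝ, Rates d L σ lam J →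
        c ≤ wExp J t θ (fun g => if ManyLong (k + 1) (ε * (L : ℝ) ^ d) g then 1 else 0) := by
  have hone : ∀ {V : Type} [Fintype V] [DecidableEq V] (J : V → V → ℝ) (t : ℝ),
      ∑ g, stirLaw J t g * θ ^ numCycles g = Real.exp (-(t * totalRate J)) *
        ∑ g, Pool.Agent.W805.LR.stirMass J t g * θ ^ Pool.Agent.W805.LR.cyc g := by
    intro V _ _ J t
    have := wsum_eq J t θ (fun _ => 1)
    simpa using this
  have hJ0 : ∀ (L : ℕ) [NeZero L] (J : (Fin d → ZMod L) → (Fin d → ZMod L) → ℝ),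
      Rates d L σ lam J → ∀ x y, 0 ≤ J x y := by
    intro L _ J hJ x y
    rcases eq_or_ne x y with rfl | hxy
    · rw [hJ.2.1]
    · exact le_trans (by positivity) (hJ.2.2 x y hxy)
  constructor
  · intro η hη
    obtain ⟨t₁, ht₁, ε, hε, h⟩ := Pool.Agent.W805.LR.main2_thm d σ lam θ η hd hσ hσd hlam hθ hη
    refine ⟨t₁, ht₁, ε, hε, fun t ht => ?_⟩
    obtain ⟨L₀, h⟩ := h t ht
    refine ⟨L₀, fun L _ hL J hJ => ?_⟩
    have h1 := h L hL J hJ
    have ht0 : 0 ≤ t := (lt_of_lt_of_le ht₁ ht).le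
    have hW : 0 < WW J t θ := WW_pos (hJ0 L J hJ) ht0 hθ
    have hE := Real.exp_pos (-(t * totalRate J))
    have hLpos : (0 : ℝ) < (L : ℝ) ^ d := by
      have : (0 : ℝ) < L := by exact_mod_cast Nat.pos_of_ne_zero (NeZero.ne L)
      positivity
    have hcard : (Fintype.card (Fin d → ZMod L) : ℝ) = (L : ℝ) ^ d := by
      rw [Fintype.card_fun, ZMod.card, Fintype.card_fin]
      push_cast
      rfl
    refine Pool.Agent.Results.MP_6c3d62_pr.NumberOfCycles.wExp_le hW ?_
    rw [wsum_eq]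
    unfold WW
    rw [hone]
    have h2 : ∑ g, Pool.Agent.W805.LR.stirMass J t g * θ ^ Pool.Agent.W805.LR.cyc g *
        shortFrac (ε * (L : ℝ) ^ d) g ≤
        η * ∑ g, Pool.Agent.W805.LR.stirMass J t g * θ ^ Pool.Agent.W805.LR.cyc g := by
      have h3 : ∑ g, Pool.Agent.W805.LR.stirMass J t g * θ ^ Pool.Agent.W805.LR.cyc g *
          shortFrac (ε * (L : ℝ) ^ d) g = (∑ g, Pool.Agent.W805.LR.stirMass J t g *
          θ ^ Pool.Agent.W805.LR.cyc g * (Pool.Agent.W805.LR.cnt fun v =>
            Pool.Agent.W805.LR.len g v < ε * (L : ℝ) ^ d)) / (L : ℝ) ^ d := by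
        rw [Finset.sum_div]
        refine Finset.sum_congr rfl fun g _ => ?_
        unfold shortFrac
        rw [short_eq, hcard]
        ring
      rw [h3, div_le_iff₀ hLpos]
      linarith
    calc _ ≤ Real.exp (-(t * totalRate J)) * (η * ∑ g, Pool.Agent.W805.LR.stirMass J t g *
          θ ^ Pool.Agent.W805.LR.cyc g) := mul_le_mul_of_nonneg_left h2 hE.le
      _ = _ := by ring
  · obtain ⟨t₁, ht₁, h⟩ := Pool.Agent.W805.LR.many_main d σ lam θ hd hσ hσd hlam hθ
    refine ⟨t₁, ht₁, fun k => ?_⟩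
    obtain ⟨ε, hε, c, hc, h⟩ := h k
    refine ⟨ε, hε, c, hc, fun t ht => ?_⟩
    obtain ⟨L₀, h⟩ := h t ht
    refine ⟨L₀, fun L _ hL J hJ => ?_⟩
    have h1 := h L hL J hJ
    have ht0 : 0 ≤ t := (lt_of_lt_of_le ht₁ ht).le
    have hW : 0 < ∑ g, stirLaw J t g * θ ^ numCycles g := WW_pos (hJ0 L J hJ) ht0 hθ
    have hE := Real.exp_pos (-(t * totalRate J))
    unfold wExp
    rw [le_div_iff₀ hW, wsum_eq, hone]
    have h2 : ∀ g : Perm (Fin d → ZMod L), (if ManyLong (k + 1) (ε * (L : ℝ) ^ d) g then (1 : ℝ) else 0)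
        = if Pool.Agent.W805.LR.manyCyc g (k + 1) (ε * (L : ℝ) ^ d) then 1 else 0 := by
      intro g
      simp only [many_iff]
    simp only [h2]
    calc c * (Real.exp (-(t * totalRate J)) * ∑ g, Pool.Agent.W805.LR.stirMass J t g *
          θ ^ Pool.Agent.W805.LR.cyc g) = Real.exp (-(t * totalRate J)) * (c * ∑ g,
          Pool.Agent.W805.LR.stirMass J t g * θ ^ Pool.Agent.W805.LR.cyc g) := by ring
      _ ≤ _ := mul_le_mul_of_nonneg_left h1 hE.le

end Pool.Agent.Results.MP_6c3d62_pr.LongRangeLongCycles
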